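import Pool.Agent.N783.PQ.Def
import Pool.Agent.N87.PJ.CQ
import Pool.Agent.N697.PJ.ON

/-!
# Project PQ (helper783), part CQA (subtask 4945), by helper456: distinguished matrices over a finite
prime field with characteristic polynomial `x h(x)`, for any symmetric matrix `A`

If the set is not empty, then `A` is isometric to the antidiagonal matrix `J`: the Gram matrix of the
vectors `ξ, T ξ, T ^ 2 ξ, ..` for `A` is a Hankel matrix, and it is the Gram matrix for `J` of a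
Toeplitz matrix made from a square root of a power series. The result for `J` is due to helper87.
-/

set_option autoImplicit false
set_option linter.all false

open Polynomial Matrix

namespace Pool.Agent.N456.PQ

open Pool.Agent.N352.PJ (Mt Jm)
open Pool.Agent.N783.PQ (chp form Dist S_CQA)
open Pool.Agent.N87.PJ (J_sq J_tr J_mul_apply)

variable {g : ℕ} {F : Type} [Field F]

/-- square roots of power series up to a given order -/
lemma sqrt_ser (h2 : (2 : F) ≠ 0) (c : ℕ → F) (h0 : c 0 = 1) (n : ℕ) :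
    ∃ s : PowerSeries F, PowerSeries.coeff 0 s = 1 ∧
      ∀ m ≤ n, PowerSeries.coeff m (s * s) = c m := by
  induction n with
  | zero =>
    refine ⟨1, by simp, fun m hm => ?_⟩
    obtain rfl : m = 0 := by omega
    simp [h0]
  | succ n ih =>
    obtain ⟨s, hs0, hs⟩ := ih
    set t : F := (c (n + 1) - PowerSeries.coeff (n + 1) (s * s)) / 2 with ht
    refine ⟨s + PowerSeries.X ^ (n + 1) * PowerSeries.C t, ?_, ?_⟩
    · rw [map_add, hs0, PowerSeries.coeff_X_pow_mul', if_neg (by omega), add_zero]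
    · intro m hm
      have e : (s + PowerSeries.X ^ (n + 1) * PowerSeries.C t) *
          (s + PowerSeries.X ^ (n + 1) * PowerSeries.C t) =
          s * s + PowerSeries.X ^ (n + 1) * (PowerSeries.C t * s + PowerSeries.C t * s +
            PowerSeries.X ^ (n + 1) * (PowerSeries.C t * PowerSeries.C t)) := by ring
      rw [e, map_add, PowerSeries.coeff_X_pow_mul']
      split_ifs with hnm
      · obtain rfl : m = n + 1 := by omega
        rw [Nat.sub_self, map_add, map_add, PowerSeries.coeff_X_pow_mul', if_neg (by omega),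
          PowerSeries.coeff_C_mul, hs0, ht]
        field_simp
        ring
      · rw [add_zero]
        exact hs m (by omega)

/-- the Toeplitz matrix of a power series -/
noncomputable def UU (g : ℕ) (s : PowerSeries F) : Mt g F :=
  Matrix.of fun i j => if (i : ℕ) ≤ j then PowerSeries.coeff ((j : ℕ) - i) s else 0

lemma UU_gram (s : PowerSeries F) (i j : Fin (2 * g + 1)) :
    ((UU g s)ᵀ * Jm g F * UU g s) i j =
      if 2 * g ≤ (i : ℕ) + j then PowerSeries.coeff ((i : ℕ) + j - 2 * g) (s * s) else 0 := by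
  rw [Matrix.mul_assoc, Matrix.mul_apply]
  have e1 : ∀ k : Fin (2 * g + 1), (UU g s)ᵀ i k * (Jm g F * UU g s) k j =
      if ((k : ℕ) ≤ i ∧ 2 * g ≤ (k : ℕ) + j) then PowerSeries.coeff ((i : ℕ) - k) s *
        PowerSeries.coeff ((j : ℕ) + k - 2 * g) s else 0 := by
    intro k
    rw [J_mul_apply, Matrix.transpose_apply, UU, Matrix.of_apply, Matrix.of_apply, Fin.val_rev]
    have hk := k.2
    by_cases h1 : (k : ℕ) ≤ i
    · by_cases h3 : 2 * g ≤ (k : ℕ) + j
      · rw [if_pos h1, if_pos (by omega), if_pos ⟨h1, h3⟩]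
        congr 3
        omega
      · rw [if_neg (fun h4 : 2 * g + 1 - ((k : ℕ) + 1) ≤ j => h3 (by omega)),
          mul_zero, if_neg (fun h4 : (k : ℕ) ≤ i ∧ 2 * g ≤ (k : ℕ) + j => h3 h4.2)]
    · rw [if_neg h1, zero_mul, if_neg (fun h4 : (k : ℕ) ≤ i ∧ 2 * g ≤ (k : ℕ) + j => h1 h4.1)]
  rw [Finset.sum_congr rfl fun k _ => e1 k,
    Fin.sum_univ_eq_sum_range (fun k : ℕ => if (k ≤ i ∧ 2 * g ≤ k + j) then
      PowerSeries.coeff ((i : ℕ) - k) s * PowerSeries.coeff ((j : ℕ) + k - 2 * g) s else 0)]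
  have hi := i.2
  have hj := j.2
  split_ifs with hij
  · rw [PowerSeries.coeff_mul, ← Finset.sum_filter]
    refine Finset.sum_nbij' (fun k => ((i : ℕ) - k, (j : ℕ) + k - 2 * g))
      (fun p => (i : ℕ) - p.1) ?_ ?_ ?_ ?_ ?_
    · intro k hk
      simp only [Finset.mem_filter, Finset.mem_range] at hk
      simp only [Finset.HasAntidiagonal.mem_antidiagonal]
      omega
    · rintro ⟨a, b⟩ hp
      simp only [Finset.HasAntidiagonal.mem_antidiagonal] at hp
      simp only [Finset.mem_filter, Finset.mem_range]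
      omega
    · intro k hk
      simp only [Finset.mem_filter, Finset.mem_range] at hk
      show (i : ℕ) - ((i : ℕ) - k) = k
      omega
    · rintro ⟨a, b⟩ hp
      simp only [Finset.HasAntidiagonal.mem_antidiagonal] at hp
      simp only [Prod.mk.injEq]
      omega
    · intro k hk
      rfl
  · refine Finset.sum_eq_zero fun k _ => if_neg ?_
    omega

/-- a form with a distinguished vector is isometric to `J` -/
lemma iso (h2 : (2 : F) ≠ 0) {A B : Mt g F} (hA : A.IsSymm) (hd : IsUnit A.det) (hB : B.IsSymm)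
    (hD : Dist A B) : ∃ P : Mt g F, IsUnit P.det ∧ Pᵀ * Jm g F * P = A := by
  obtain ⟨ξ, hξ⟩ := hD
  set T : Mt g F := A⁻¹ * B with hT
  have hAT : A * T = B := by
    rw [hT, ← Matrix.mul_assoc, Matrix.mul_nonsing_inv _ hd, Matrix.one_mul]
  have hTA : Tᵀ * A = A * T := by
    have h1 := congrArg Matrix.transpose hAT
    rw [Matrix.transpose_mul, hA.eq, hB.eq] at h1
    rw [h1, hAT]
  have hTp : ∀ m : ℕ, (T ^ m)ᵀ * A = A * T ^ m := by
    intro m
    induction m with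
    | zero => simp
    | succ m ih =>
      rw [pow_succ', Matrix.transpose_mul, Matrix.mul_assoc, hTA, ← Matrix.mul_assoc, ih,
        Matrix.mul_assoc, ← pow_succ, ← pow_succ']
  set M : Mt g F := Matrix.of fun i j => ((T ^ (j : ℕ)) *ᵥ ξ) i with hM
  have hG : ∀ i j, (Mᵀ * A * M) i j = form A B (i + j) ξ := by
    intro i j
    rw [Matrix.mul_mul_apply]
    have h1 : Mᵀ i = T ^ (i : ℕ) *ᵥ ξ := rfl
    have h3 : Mᵀ j = T ^ (j : ℕ) *ᵥ ξ := rfl
    rw [h1, h3, ← Matrix.vecMul_transpose, ← Matrix.dotProduct_mulVec, Matrix.mulVec_mulVec,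
      Matrix.mulVec_mulVec, hTp, Matrix.mul_assoc, ← pow_add]
    rfl
  obtain ⟨s, hs0, hs⟩ := sqrt_ser h2 (fun m => form A B (2 * g + m) ξ)
    (by rw [Nat.add_zero, hξ _ le_rfl, if_pos rfl]) (2 * g)
  have hU : (UU g s)ᵀ * Jm g F * UU g s = Mᵀ * A * M := by
    ext i j
    rw [UU_gram, hG]
    have hi := i.2
    have hj := j.2
    split_ifs with hij
    · rw [hs _ (by omega)]
      show form A B (2 * g + ((i : ℕ) + j - 2 * g)) ξ = _
      congr 1
      omega
    · rw [hξ _ (by omega), if_neg (by omega)]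
  have hUd : (UU g s).det = 1 := by
    have h3 : (UU g s).BlockTriangular id := by
      intro i j hij
      have hij' : j < i := hij
      have h4 : (j : ℕ) < i := hij'
      rw [UU, Matrix.of_apply, if_neg (by omega)]
    rw [Matrix.det_of_upperTriangular h3]
    refine Finset.prod_eq_one fun i _ => ?_
    rw [UU, Matrix.of_apply, if_pos le_rfl, Nat.sub_self, hs0]
  have hJd : (Jm g F).det ≠ 0 := by
    intro h0
    have h3 := congrArg Matrix.det (J_sq (g := g) (F := F))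
    rw [Matrix.det_mul, h0, zero_mul, Matrix.det_one] at h3
    exact zero_ne_one h3
  have hMd : IsUnit M.det := by
    rw [isUnit_iff_ne_zero]
    intro h0
    have h3 := congrArg Matrix.det hU
    rw [Matrix.det_mul, Matrix.det_mul, Matrix.det_mul, Matrix.det_transpose, hUd, h0, mul_zero,
      one_mul, mul_one] at h3
    exact hJd h3
  refine ⟨UU g s * M⁻¹, ?_, ?_⟩
  · rw [Matrix.det_mul, hUd, one_mul]
    exact Matrix.isUnit_nonsing_inv_det M hMd
  · rw [Matrix.transpose_mul]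
    calc (M⁻¹)ᵀ * (UU g s)ᵀ * Jm g F * (UU g s * M⁻¹) =
        (M⁻¹)ᵀ * ((UU g s)ᵀ * Jm g F * UU g s) * M⁻¹ := by simp only [Matrix.mul_assoc]
      _ = (M⁻¹)ᵀ * (Mᵀ * A * M) * M⁻¹ := by rw [hU]
      _ = ((M⁻¹)ᵀ * Mᵀ) * A * (M * M⁻¹) := by simp only [Matrix.mul_assoc]
      _ = A := by
          rw [← Matrix.transpose_mul, Matrix.mul_nonsing_inv _ hMd, Matrix.transpose_one,
            Matrix.one_mul, Matrix.mul_one]

/-- **the number of distinguished matrices, for any form** -/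
theorem cqa_of (hCQ : Pool.Agent.N352.PJ.S_CQ) : S_CQA := by
  intro g q _ hg hq h hm hi hd A hA hdet
  haveI : NeZero q := ⟨(Fact.out : q.Prime).ne_zero⟩
  have h2 : (2 : ZMod q) ≠ 0 := by
    intro h0
    have h1 : ((2 : ℕ) : ZMod q) = 0 := by exact_mod_cast h0
    rw [ZMod.natCast_eq_zero_iff] at h1
    exact hq ((Nat.prime_dvd_prime_iff_eq Fact.out Nat.prime_two).1 h1)
  have hu : IsUnit A.det := by
    rw [hdet]
    exact (IsUnit.neg isUnit_one).pow g
  rcases isEmpty_or_nonempty {B : Mt g (ZMod q) // B.IsSymm ∧ chp A B = X * h ∧ Dist A B} with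
    hE | ⟨⟨B₀, hB₀, -, hD₀⟩⟩
  · rw [Nat.card_of_isEmpty]
    exact Nat.zero_le _
  obtain ⟨P, hP, hPA⟩ := iso h2 hA hu hB₀ hD₀
  have hPA' : A⁻¹ = P⁻¹ * Jm g (ZMod q) * (P⁻¹)ᵀ := by
    refine Matrix.inv_eq_left_inv ?_
    rw [← hPA]
    calc P⁻¹ * Jm g (ZMod q) * (P⁻¹)ᵀ * (Pᵀ * Jm g (ZMod q) * P) =
        P⁻¹ * Jm g (ZMod q) * ((P⁻¹)ᵀ * Pᵀ) * Jm g (ZMod q) * P := by
          simp only [Matrix.mul_assoc]
      _ = P⁻¹ * (Jm g (ZMod q) * Jm g (ZMod q)) * P := by
          rw [← Matrix.transpose_mul, Matrix.mul_nonsing_inv _ hP, Matrix.transpose_one,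
            Matrix.mul_one, Matrix.mul_assoc P⁻¹]
      _ = 1 := by rw [J_sq, Matrix.mul_one, Matrix.nonsing_inv_mul _ hP]
  have hconj : ∀ B : Mt g (ZMod q), A⁻¹ * B =
      P⁻¹ * (Jm g (ZMod q) * ((P⁻¹)ᵀ * B * P⁻¹)) * P := by
    intro B
    rw [hPA']
    calc P⁻¹ * Jm g (ZMod q) * (P⁻¹)ᵀ * B = P⁻¹ * Jm g (ZMod q) * (P⁻¹)ᵀ * B * (P⁻¹ * P) := by
          rw [Matrix.nonsing_inv_mul _ hP, Matrix.mul_one]
      _ = _ := by simp only [Matrix.mul_assoc]
  have hpow : ∀ (B : Mt g (ZMod q)) (m : ℕ), P * (A⁻¹ * B) ^ m =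
      (Jm g (ZMod q) * ((P⁻¹)ᵀ * B * P⁻¹)) ^ m * P := by
    intro B m
    induction m with
    | zero => simp
    | succ m ih =>
      rw [pow_succ, ← Matrix.mul_assoc, ih, pow_succ]
      conv_lhs => rw [hconj B]
      simp only [Matrix.mul_assoc]
      rw [← Matrix.mul_assoc P P⁻¹, Matrix.mul_nonsing_inv _ hP, Matrix.one_mul]
  have hcard : Nat.card {B : Mt g (ZMod q) // B.IsSymm ∧ chp A B = X * h ∧ Dist A B} ≤
      Nat.card {B : Mt g (ZMod q) // B.IsSymm ∧ Pool.Agent.N352.PJ.chp B = X * h ∧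
        Pool.Agent.N352.PJ.Dist B} := by
    refine Nat.card_le_card_of_injective (fun B => ⟨(P⁻¹)ᵀ * B.1 * P⁻¹, ?_, ?_, ?_⟩) ?_
    · show ((P⁻¹)ᵀ * B.1 * P⁻¹)ᵀ = _
      rw [Matrix.transpose_mul, Matrix.transpose_mul, Matrix.transpose_transpose, B.2.1.eq,
        Matrix.mul_assoc]
    · refine Eq.trans ?_ B.2.2.1
      show (Jm g (ZMod q) * ((P⁻¹)ᵀ * B.1 * P⁻¹)).charpoly = (A⁻¹ * B.1).charpoly
      conv_rhs => rw [hconj B.1, Matrix.charpoly_mul_comm, ← Matrix.mul_assoc,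
        Matrix.mul_nonsing_inv _ hP, Matrix.one_mul]
    · obtain ⟨ξ, hξ⟩ := B.2.2.2
      refine ⟨P *ᵥ ξ, fun m hm' => ?_⟩
      rw [← hξ m hm']
      show (P *ᵥ ξ) ⬝ᵥ ((Jm g (ZMod q) * (Jm g (ZMod q) * ((P⁻¹)ᵀ * B.1 * P⁻¹)) ^ m) *ᵥ
        (P *ᵥ ξ)) = ξ ⬝ᵥ ((A * (A⁻¹ * B.1) ^ m) *ᵥ ξ)
      have h9 : P *ᵥ ξ = ξ ᵥ* Pᵀ := (Matrix.vecMul_transpose _ _).symm
      rw [Matrix.mulVec_mulVec, h9, ← Matrix.dotProduct_mulVec, Matrix.mulVec_mulVec,
        Matrix.mul_assoc (Jm g (ZMod q)), ← hpow, ← Matrix.mul_assoc, ← Matrix.mul_assoc, hPA]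
    · intro B B' hBB
      have h3 : (P⁻¹)ᵀ * B.1 * P⁻¹ = (P⁻¹)ᵀ * B'.1 * P⁻¹ := congrArg Subtype.val hBB
      have h4 : ∀ B : Mt g (ZMod q), Pᵀ * ((P⁻¹)ᵀ * B * P⁻¹) * P = B := by
        intro B
        calc Pᵀ * ((P⁻¹)ᵀ * B * P⁻¹) * P = (Pᵀ * (P⁻¹)ᵀ) * B * (P⁻¹ * P) := by
              simp only [Matrix.mul_assoc]
          _ = B := by
              rw [← Matrix.transpose_mul, Matrix.nonsing_inv_mul _ hP, Matrix.transpose_one,
                Matrix.one_mul, Matrix.mul_one]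
      exact Subtype.ext (by rw [← h4 B.1, h3, h4])
  have h5 := hCQ g (ZMod q) hg h2 h hm hi hd
  rw [Nat.card_zmod] at h5
  omega

theorem cqa : Pool.Agent.N783.PQ.S_CQA :=
  cqa_of (Pool.Agent.N87.PJ.cq Pool.Agent.N697.PJ.on)

end Pool.Agent.N456.PQ
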