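import Pool.Agent.N922.PQ.Def

/-!
# Project PQ (helper922), part FAM (subtask 6614), by helper456: many pairs `(a, b)` with squarefree
`4 a ^ 3 + 27 b ^ 2` in residue classes
-/

set_option autoImplicit false
set_option linter.all false

open scoped Classical

namespace Pool.Agent.N456.PQ

open Finset Filter
open Pool.Agent.N922.PQ (dsc IsPr GoodS GoodT Fam S_FAM)

/-! ### Residue classes in intervals -/

theorem card_cls {u v q : ℤ} (huv : u ≤ v) (hq : 0 < q) {s : Finset ℤ} (hs : s ⊆ Finset.Ioc u v)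
    (h : ∀ x ∈ s, ∀ y ∈ s, q ∣ x - y) : (s.card : ℝ) ≤ ((v : ℝ) - u) / q + 1 := by
  have key : (s.card : ℚ) ≤ ((v : ℚ) - u) / q + 1 := by
    have hq' : (0 : ℚ) < q := by exact_mod_cast hq
    have huv' : (u : ℚ) ≤ v := by exact_mod_cast huv
    have h0 : 0 ≤ ((v : ℚ) - u) / q := div_nonneg (by linarith) hq'.le
    rcases s.eq_empty_or_nonempty with h1 | ⟨r, hr⟩
    · rw [h1, Finset.card_empty]
      push_cast
      linarith
    · have h1 : s ⊆ {x ∈ Finset.Ioc u v | x ≡ r [ZMOD q]} := by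
        intro x hx
        rw [Finset.mem_filter]
        exact ⟨hs hx, Int.modEq_iff_dvd.2 (h r hr x hx)⟩
      have h2 := Int.Ioc_filter_modEq_card u v hq r
      have h3 : (s.card : ℤ) ≤ max (⌊((v : ℚ) - r) / q⌋ - ⌊((u : ℚ) - r) / q⌋) 0 := by
        rw [← h2]
        exact_mod_cast Finset.card_le_card h1
      have h4 := Int.floor_le (((v : ℚ) - r) / q)
      have h5 := Int.lt_floor_add_one (((u : ℚ) - r) / q)
      have h6 : ((v : ℚ) - u) / q = ((v : ℚ) - r) / q - ((u : ℚ) - r) / q := by ring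
      rcases le_max_iff.1 h3 with h7 | h7
      · have h8 : (s.card : ℚ) ≤ (⌊((v : ℚ) - r) / q⌋ : ℚ) - ⌊((u : ℚ) - r) / q⌋ := by
          exact_mod_cast h7
        linarith
      · have h8 : (s.card : ℚ) ≤ 0 := by exact_mod_cast h7
        linarith
  have key2 : (((s.card : ℚ)) : ℝ) ≤ ((((v : ℚ) - u) / q + 1 : ℚ) : ℝ) := by exact_mod_cast key
  push_cast at key2
  exact key2

theorem card_cls_ge {u v q : ℤ} (hq : 0 < q) (r : ℤ) :
    ((v : ℝ) - u) / q - 1 ≤ (((Finset.Ioc u v).filter fun x => q ∣ x - r).card : ℝ) := by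
  have key : ((v : ℚ) - u) / q - 1 ≤ (((Finset.Ioc u v).filter fun x => q ∣ x - r).card : ℚ) := by
    have h1 : ((Finset.Ioc u v).filter fun x => q ∣ x - r) =
        {x ∈ Finset.Ioc u v | x ≡ r [ZMOD q]} := by
      apply Finset.filter_congr
      intro x _
      rw [Int.modEq_comm, Int.modEq_iff_dvd]
    have h2 := Int.Ioc_filter_modEq_card u v hq r
    have h3 : (⌊((v : ℚ) - r) / q⌋ - ⌊((u : ℚ) - r) / q⌋ : ℤ) ≤
        (((Finset.Ioc u v).filter fun x => q ∣ x - r).card : ℤ) := by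
      rw [h1, h2]
      exact le_max_left _ _
    have h4 := Int.lt_floor_add_one (((v : ℚ) - r) / q)
    have h5 := Int.floor_le (((u : ℚ) - r) / q)
    have h6 : ((v : ℚ) - u) / q = ((v : ℚ) - r) / q - ((u : ℚ) - r) / q := by ring
    have h8 : (⌊((v : ℚ) - r) / q⌋ : ℚ) - ⌊((u : ℚ) - r) / q⌋ ≤
        (((Finset.Ioc u v).filter fun x => q ∣ x - r).card : ℚ) := by exact_mod_cast h3
    linarith
  have key2 : ((((v : ℚ) - u) / q - 1 : ℚ) : ℝ) ≤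
      (((((Finset.Ioc u v).filter fun x => q ∣ x - r).card : ℚ)) : ℝ) := by exact_mod_cast key
  push_cast at key2
  exact key2

/-! ### Local arithmetic -/

theorem cop_of {p : ℕ} (hp : p.Prime) {x : ℤ} (h : ¬ (p : ℤ) ∣ x) : IsCoprime (p : ℤ) x :=
  (Nat.prime_iff_prime_int.1 hp).coprime_iff_not_dvd.2 h

theorem not_dvd_small {p : ℕ} (hp : p.Prime) (hp5 : 5 ≤ p) : ¬ (p : ℤ) ∣ 2 ∧ ¬ (p : ℤ) ∣ 3 := by
  constructor
  · intro h
    have := Int.le_of_dvd (by norm_num) h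
    omega
  · intro h
    have := Int.le_of_dvd (by norm_num) h
    omega

theorem loc_b {p : ℕ} (hp : p.Prime) (hp5 : 5 ≤ p) {a b b' : ℤ} (ha : ¬ (p : ℤ) ∣ a)
    (h : (p : ℤ) ^ 2 ∣ dsc a b) (h' : (p : ℤ) ^ 2 ∣ dsc a b') :
    (p : ℤ) ^ 2 ∣ b - b' ∨ (p : ℤ) ^ 2 ∣ b + b' := by
  have hpp := Nat.prime_iff_prime_int.1 hp
  obtain ⟨h2, h3⟩ := not_dvd_small hp hp5
  have h27 : ¬ (p : ℤ) ∣ 27 := by
    intro h
    have h4 : (p : ℤ) ∣ 3 ^ 3 := by norm_num; exact h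
    exact h3 (hpp.dvd_of_dvd_pow h4)
  have h5 : (p : ℤ) ^ 2 ∣ 27 * ((b - b') * (b + b')) := by
    have h6 := dvd_sub h h'
    have h7 : dsc a b - dsc a b' = 27 * ((b - b') * (b + b')) := by unfold dsc; ring
    rwa [h7] at h6
  have h6 : (p : ℤ) ^ 2 ∣ (b - b') * (b + b') := ((cop_of hp h27).pow_left).dvd_of_dvd_mul_left h5
  by_cases h7 : (p : ℤ) ∣ b - b'
  · left
    have h8 : ¬ (p : ℤ) ∣ b + b' := by
      intro h8
      have h9 : (p : ℤ) ∣ 2 * b := by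
        have := dvd_add h7 h8
        have e : b - b' + (b + b') = 2 * b := by ring
        rwa [e] at this
      have h10 : (p : ℤ) ∣ b := (hpp.dvd_or_dvd h9).resolve_left h2
      have h11 : (p : ℤ) ∣ 4 * a ^ 3 := by
        have h12 : (p : ℤ) ∣ dsc a b := (dvd_pow_self _ two_ne_zero).trans h
        have h13 : (p : ℤ) ∣ 27 * b ^ 2 := (h10.pow (by norm_num)).mul_left 27 |>.trans (dvd_refl _)
        have h14 := dvd_sub h12 h13
        have e : dsc a b - 27 * b ^ 2 = 4 * a ^ 3 := by unfold dsc; ring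
        rwa [e] at h14
      rcases hpp.dvd_or_dvd h11 with h12 | h12
      · have h13 : (p : ℤ) ∣ 2 ^ 2 := by norm_num; exact h12
        exact h2 (hpp.dvd_of_dvd_pow h13)
      · exact ha (hpp.dvd_of_dvd_pow h12)
    exact ((cop_of hp h8).pow_left).dvd_of_dvd_mul_right h6
  · right
    exact ((cop_of hp h7).pow_left).dvd_of_dvd_mul_left h6

theorem loc_a {p : ℕ} (hp : p.Prime) (hp5 : 5 ≤ p) {a b : ℤ} (ha : (p : ℤ) ∣ a)
    (h : (p : ℤ) ^ 2 ∣ dsc a b) : (p : ℤ) ∣ b := by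
  have hpp := Nat.prime_iff_prime_int.1 hp
  obtain ⟨h2, h3⟩ := not_dvd_small hp hp5
  have h12 : (p : ℤ) ∣ dsc a b := (dvd_pow_self _ two_ne_zero).trans h
  have h13 : (p : ℤ) ∣ 4 * a ^ 3 := (dvd_pow ha (by norm_num)).mul_left 4
  have h14 := dvd_sub h12 h13
  have e : dsc a b - 4 * a ^ 3 = 27 * b ^ 2 := by unfold dsc; ring
  rw [e] at h14
  rcases hpp.dvd_or_dvd h14 with h15 | h15
  · exfalso
    have h4 : (p : ℤ) ∣ 3 ^ 3 := by norm_num; exact h15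
    exact h3 (hpp.dvd_of_dvd_pow h4)
  · exact hpp.dvd_of_dvd_pow h15

/-- a zero of the cubic polynomial modulo a prime which divides the discriminant -/
theorem root_of {P A B : ℤ} (hP : IsPr P) (h : P ∣ 4 * A ^ 3 + 27 * B ^ 2) :
    ∃ z : ℤ, P ∣ z ^ 3 + A * z + B := by
  obtain ⟨hP0, hP⟩ := hP
  by_cases h2 : P ∣ 2
  · -- `B` is even
    refine ⟨0, ?_⟩
    have hP2 : P = 2 := by
      have := Int.le_of_dvd (by norm_num) h2
      have h1 : P ≠ 1 := fun h1 => hP.not_unit (h1 ▸ isUnit_one)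
      omega
    subst hP2
    have h3 : (2 : ℤ) ∣ 27 * B ^ 2 := (Int.dvd_add_right ⟨2 * A ^ 3, by ring⟩).1 h
    have h4 : (2 : ℤ) ∣ B := by
      rcases hP.dvd_or_dvd h3 with h5 | h5
      · omega
      · exact hP.dvd_of_dvd_pow h5
    simpa using h4
  by_cases h3 : P ∣ 3
  · have hP3 : P = 3 := by
      have := Int.le_of_dvd (by norm_num) h3
      have h1 : P ≠ 1 := fun h1 => hP.not_unit (h1 ▸ isUnit_one)
      have h4 : P ≠ 2 := fun h4 => h2 (h4 ▸ dvd_refl _)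
      omega
    subst hP3
    have h5 : (3 : ℤ) ∣ 4 * A ^ 3 := (Int.dvd_add_left ⟨9 * B ^ 2, by ring⟩).1 h
    have h6 : (3 : ℤ) ∣ A := by
      rcases hP.dvd_or_dvd h5 with h5 | h5
      · omega
      · exact hP.dvd_of_dvd_pow h5
    refine ⟨-B, ?_⟩
    have h7 : (3 : ℤ) ∣ B ^ 3 - B := by
      have h8 : B % 3 = 0 ∨ B % 3 = 1 ∨ B % 3 = 2 := by omega
      have e : B = 3 * (B / 3) + B % 3 := by omega
      obtain ⟨k, hk⟩ : ∃ k, k = B / 3 := ⟨_, rfl⟩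
      rw [← hk] at e
      rcases h8 with h8 | h8 | h8
      · rw [h8] at e
        rw [e]
        exact ⟨9 * k ^ 3 - k, by ring⟩
      · rw [h8] at e
        rw [e]
        exact ⟨9 * k ^ 3 + 9 * k ^ 2 + 3 * k - k, by ring⟩
      · rw [h8] at e
        rw [e]
        exact ⟨9 * k ^ 3 + 18 * k ^ 2 + 12 * k + 2 - k, by ring⟩
    have h9 : (-B) ^ 3 + A * (-B) + B = -(B ^ 3 - B) + A * (-B) := by ring
    rw [h9]
    exact dvd_add (dvd_neg.2 h7) (h6.mul_right _)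
  · by_cases hA : P ∣ A
    · refine ⟨0, ?_⟩
      have h5 : P ∣ 27 * B ^ 2 := (Int.dvd_add_right ((dvd_pow hA (by norm_num)).mul_left 4)).1 h
      have h6 : P ∣ B := by
        rcases hP.dvd_or_dvd h5 with h5 | h5
        · exfalso
          have h4 : P ∣ 3 ^ 3 := by norm_num; exact h5
          exact h3 (hP.dvd_of_dvd_pow h4)
        · exact hP.dvd_of_dvd_pow h5
      simpa using h6
    · have h5 : ¬ P ∣ 2 * A := fun h5 => (hP.dvd_or_dvd h5).elim h2 hA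
      obtain ⟨x, y, hxy⟩ := hP.coprime_iff_not_dvd.2 h5
      -- `x P + y (2 A) = 1`, the zero is `- 3 B y`
      refine ⟨-3 * B * y, ?_⟩
      have h6 : P ∣ 1 - y * (2 * A) := ⟨x, by linarith⟩
      have h7 : P ∣ (2 * A) ^ 3 * ((-3 * B * y) ^ 3 + A * (-3 * B * y) + B) := by
        have e : (2 * A) ^ 3 * ((-3 * B * y) ^ 3 + A * (-3 * B * y) + B) =
            -B * (4 * A ^ 3 + 27 * B ^ 2) +
            (1 - y * (2 * A)) * (27 * B ^ 3 * (1 + y * (2 * A) + (y * (2 * A)) ^ 2) +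
              12 * A ^ 3 * B) := by ring
        rw [e]
        exact dvd_add (h.mul_left _) (h6.mul_right _)
      rcases hP.dvd_or_dvd h7 with h8 | h8
      · exact absurd (hP.dvd_of_dvd_pow h8) h5
      · exact h8

/-! ### The pairs with a square factor -/

/-- the pairs in the box, in a residue class, with the factor `p ^ 2` of the discriminant -/
noncomputable def Gs (X : ℕ) (m a0 b0 : ℤ) (p : ℕ) : Finset (ℤ × ℤ) :=
  ((Finset.Ioc (0 : ℤ) ((X : ℤ) ^ 2)) ×ˢ (Finset.Ioc (-(X : ℤ) ^ 3 - 1) ((X : ℤ) ^ 3))).filter fun q =>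
    m ∣ q.1 - a0 ∧ m ∣ q.2 - b0 ∧ (p : ℤ) ^ 2 ∣ dsc q.1 q.2

theorem fib {p : ℕ} (hp : p.Prime) (hp5 : 5 ≤ p) {m : ℤ} (hm : 0 < m) (hc : IsCoprime m (p : ℤ))
    {a b0 u v : ℤ} (huv : u ≤ v) (ha : ¬ (p : ℤ) ∣ a) {s : Finset ℤ} (hs : s ⊆ Finset.Ioc u v)
    (h : ∀ x ∈ s, m ∣ x - b0 ∧ (p : ℤ) ^ 2 ∣ dsc a x) :
    (s.card : ℝ) ≤ 2 * (((v : ℝ) - u) / (m * (p : ℝ) ^ 2) + 1) := by
  have hp0 : (0 : ℤ) < p := by exact_mod_cast hp.pos
  have hq : 0 < m * (p : ℤ) ^ 2 := by positivity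
  have hc2 : IsCoprime m ((p : ℤ) ^ 2) := hc.pow_right
  have hR : ((m * (p : ℤ) ^ 2 : ℤ) : ℝ) = (m : ℝ) * (p : ℝ) ^ 2 := by push_cast; ring
  rcases s.eq_empty_or_nonempty with h0 | ⟨r, hr⟩
  · have := card_cls (q := m * (p : ℤ) ^ 2) huv hq (s := ∅) (by simp) (by simp)
    rw [hR, Finset.card_empty] at this
    rw [h0, Finset.card_empty]
    push_cast at this ⊢
    linarith
  · have h1 : s ⊆ (s.filter fun x => (p : ℤ) ^ 2 ∣ x - r) ∪ (s.filter fun x => (p : ℤ) ^ 2 ∣ x + r) := by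
      intro x hx
      rw [Finset.mem_union, Finset.mem_filter, Finset.mem_filter]
      rcases loc_b hp hp5 ha (h x hx).2 (h r hr).2 with h2 | h2
      · exact Or.inl ⟨hx, h2⟩
      · exact Or.inr ⟨hx, h2⟩
    have h2 := (Finset.card_le_card h1).trans (Finset.card_union_le _ _)
    have h3 := card_cls (q := m * (p : ℤ) ^ 2) huv hq
      (s := s.filter fun x => (p : ℤ) ^ 2 ∣ x - r) ((Finset.filter_subset _ _).trans hs) (by
        intro x hx y hy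
        rw [Finset.mem_filter] at hx hy
        apply hc2.mul_dvd
        · have := dvd_sub (h x hx.1).1 (h y hy.1).1
          have e : x - b0 - (y - b0) = x - y := by ring
          rwa [e] at this
        · have := dvd_sub hx.2 hy.2
          have e : x - r - (y - r) = x - y := by ring
          rwa [e] at this)
    have h4 := card_cls (q := m * (p : ℤ) ^ 2) huv hq
      (s := s.filter fun x => (p : ℤ) ^ 2 ∣ x + r) ((Finset.filter_subset _ _).trans hs) (by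
        intro x hx y hy
        rw [Finset.mem_filter] at hx hy
        apply hc2.mul_dvd
        · have := dvd_sub (h x hx.1).1 (h y hy.1).1
          have e : x - b0 - (y - b0) = x - y := by ring
          rwa [e] at this
        · have := dvd_sub hx.2 hy.2
          have e : x + r - (y + r) = x - y := by ring
          rwa [e] at this)
    rw [hR] at h3 h4
    have h5 : (s.card : ℝ) ≤ ((s.filter fun x => (p : ℤ) ^ 2 ∣ x - r).card : ℝ) +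
        ((s.filter fun x => (p : ℤ) ^ 2 ∣ x + r).card : ℝ) := by exact_mod_cast h2
    linarith

theorem card_Gs {p : ℕ} (hp : p.Prime) (hp5 : 5 ≤ p) {m : ℤ} (hm : 0 < m)
    (hc : IsCoprime m (p : ℤ)) (X : ℕ) (a0 b0 : ℤ) :
    ((Gs X m a0 b0 p).card : ℝ) ≤
      ((((Finset.Ioc (0 : ℤ) ((X : ℤ) ^ 2)).filter fun a => m ∣ a - a0).card : ℝ)) *
        (2 * ((2 * (X : ℝ) ^ 3 + 1) / (m * (p : ℝ) ^ 2) + 1)) +
      ((((Finset.Ioc (0 : ℤ) ((X : ℤ) ^ 2)).filter fun a => m ∣ a - a0 ∧ (p : ℤ) ∣ a).card : ℝ)) *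
        ((2 * (X : ℝ) ^ 3 + 1) / (m * (p : ℝ)) + 1) := by
  have huv : -(X : ℤ) ^ 3 - 1 ≤ (X : ℤ) ^ 3 := by
    have : (0 : ℤ) ≤ (X : ℤ) ^ 3 := by positivity
    linarith
  have hR : (((X : ℤ) ^ 3 : ℤ) : ℝ) - ((-(X : ℤ) ^ 3 - 1 : ℤ) : ℝ) = 2 * (X : ℝ) ^ 3 + 1 := by
    push_cast
    ring
  have hp0 : (0 : ℤ) < p := by exact_mod_cast hp.pos
  -- the first part
  have h1 : (((Gs X m a0 b0 p).filter fun q => ¬ (p : ℤ) ∣ q.1).card : ℝ) ≤
      ((((Finset.Ioc (0 : ℤ) ((X : ℤ) ^ 2)).filter fun a => m ∣ a - a0).card : ℝ)) *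
        (2 * ((2 * (X : ℝ) ^ 3 + 1) / (m * (p : ℝ) ^ 2) + 1)) := by
    have h2 : ∀ q ∈ (Gs X m a0 b0 p).filter fun q => ¬ (p : ℤ) ∣ q.1,
        q.1 ∈ (Finset.Ioc (0 : ℤ) ((X : ℤ) ^ 2)).filter fun a => m ∣ a - a0 := by
      intro q hq
      unfold Gs at hq
      simp only [Finset.mem_filter, Finset.mem_product] at hq ⊢
      exact ⟨hq.1.1.1, hq.1.2.1⟩
    rw [Finset.card_eq_sum_card_fiberwise h2]
    push_cast
    rw [← nsmul_eq_mul]
    apply Finset.sum_le_card_nsmul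
    intro a ha
    have h3 : (((Gs X m a0 b0 p).filter fun q => ¬ (p : ℤ) ∣ q.1).filter fun q => q.1 = a).card =
        ((((Gs X m a0 b0 p).filter fun q => ¬ (p : ℤ) ∣ q.1).filter
          fun q => q.1 = a).image Prod.snd).card := by
      rw [Finset.card_image_of_injOn]
      intro q hq q' hq' hqq
      have e1 := (Finset.mem_filter.1 hq).2
      have e2 := (Finset.mem_filter.1 hq').2
      exact Prod.ext (e1.trans e2.symm) hqq
    rw [h3]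
    by_cases hpa : (p : ℤ) ∣ a
    · have h4 : ((((Gs X m a0 b0 p).filter fun q => ¬ (p : ℤ) ∣ q.1).filter
          fun q => q.1 = a).image Prod.snd) = ∅ := by
        rw [Finset.image_eq_empty, Finset.filter_eq_empty_iff]
        intro q hq hqa
        rw [← hqa] at hpa
        exact (Finset.mem_filter.1 hq).2 hpa
      rw [h4, Finset.card_empty]
      have hm' : (0 : ℝ) < m := by exact_mod_cast hm
      push_cast
      positivity
    · have h5 := fib hp hp5 hm hc (a := a) (b0 := b0) huv hpa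
        (s := ((((Gs X m a0 b0 p).filter fun q => ¬ (p : ℤ) ∣ q.1).filter
          fun q => q.1 = a).image Prod.snd)) (by
          intro x hx
          rw [Finset.mem_image] at hx
          obtain ⟨q, hq, rfl⟩ := hx
          unfold Gs at hq
          simp only [Finset.mem_filter, Finset.mem_product] at hq
          exact hq.1.1.1.2) (by
          intro x hx
          rw [Finset.mem_image] at hx
          obtain ⟨q, hq, rfl⟩ := hx
          unfold Gs at hq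
          simp only [Finset.mem_filter, Finset.mem_product] at hq
          obtain ⟨⟨⟨-, h6, h7, h8⟩, -⟩, rfl⟩ := hq
          exact ⟨h7, h8⟩)
      rw [hR] at h5
      exact h5
  -- the second part
  have h2 : (((Gs X m a0 b0 p).filter fun q => ¬ ¬ (p : ℤ) ∣ q.1).card : ℝ) ≤
      ((((Finset.Ioc (0 : ℤ) ((X : ℤ) ^ 2)).filter fun a => m ∣ a - a0 ∧ (p : ℤ) ∣ a).card : ℝ)) *
        ((2 * (X : ℝ) ^ 3 + 1) / (m * (p : ℝ)) + 1) := by
    have h3 : ((Gs X m a0 b0 p).filter fun q => ¬ ¬ (p : ℤ) ∣ q.1) ⊆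
        ((Finset.Ioc (0 : ℤ) ((X : ℤ) ^ 2)).filter fun a => m ∣ a - a0 ∧ (p : ℤ) ∣ a) ×ˢ
        ((Finset.Ioc (-(X : ℤ) ^ 3 - 1) ((X : ℤ) ^ 3)).filter fun b => m ∣ b - b0 ∧ (p : ℤ) ∣ b) := by
      intro q hq
      unfold Gs at hq
      simp only [Finset.mem_filter, Finset.mem_product, not_not] at hq ⊢
      obtain ⟨⟨⟨h4, h5⟩, h6, h7, h8⟩, h9⟩ := hq
      exact ⟨⟨h4, h6, h9⟩, h5, h7, loc_a hp hp5 h9 h8⟩
    have h4 := Finset.card_le_card h3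
    rw [Finset.card_product] at h4
    have hq : 0 < m * (p : ℤ) := by positivity
    have h5 := card_cls (q := m * (p : ℤ)) huv hq
      (s := (Finset.Ioc (-(X : ℤ) ^ 3 - 1) ((X : ℤ) ^ 3)).filter fun b => m ∣ b - b0 ∧ (p : ℤ) ∣ b)
      (Finset.filter_subset _ _) (by
        intro x hx y hy
        rw [Finset.mem_filter] at hx hy
        apply hc.mul_dvd
        · have := dvd_sub hx.2.1 hy.2.1
          have e : x - b0 - (y - b0) = x - y := by ring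
          rwa [e] at this
        · exact dvd_sub hx.2.2 hy.2.2)
    rw [hR] at h5
    have hR2 : ((m * (p : ℤ) : ℤ) : ℝ) = (m : ℝ) * (p : ℝ) := by push_cast; ring
    rw [hR2] at h5
    refine le_trans ?_ (mul_le_mul_of_nonneg_left h5 (Nat.cast_nonneg _))
    exact_mod_cast h4
  have h3 := Finset.card_filter_add_card_filter_not (s := Gs X m a0 b0 p)
    (fun q : ℤ × ℤ => ¬ (p : ℤ) ∣ q.1)
  have h4 : ((Gs X m a0 b0 p).card : ℝ) =
      (((Gs X m a0 b0 p).filter fun q => ¬ (p : ℤ) ∣ q.1).card : ℝ) +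
      (((Gs X m a0 b0 p).filter fun q => ¬ ¬ (p : ℤ) ∣ q.1).card : ℝ) := by exact_mod_cast h3.symm
  rw [h4]
  exact add_le_add h1 h2

/-- small primes -/
theorem card_small {p : ℕ} (hp : p.Prime) (hp5 : 5 ≤ p) {m : ℤ} (hm : 0 < m)
    (hc : IsCoprime m (p : ℤ)) {X : ℕ} (hX : 1 ≤ X) (a0 b0 : ℤ) :
    ((Gs X m a0 b0 p).card : ℝ) ≤ 6 * (X : ℝ) ^ 5 * (m : ℝ)⁻¹ ^ 2 * ((p : ℝ) ^ 2)⁻¹ +
      18 * (X : ℝ) ^ 3 := by
  have h1 := card_Gs hp hp5 hm hc X a0 b0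
  have hp0 : (0 : ℤ) < p := by exact_mod_cast hp.pos
  have hm1 : (1 : ℝ) ≤ m := by exact_mod_cast hm
  have hp1 : (1 : ℝ) ≤ p := by exact_mod_cast hp.one_le
  have hx : (1 : ℝ) ≤ X := by exact_mod_cast hX
  have hX2 : (0 : ℤ) ≤ (X : ℤ) ^ 2 := by positivity
  have h2 := card_cls (q := m) hX2 hm
    (s := (Finset.Ioc (0 : ℤ) ((X : ℤ) ^ 2)).filter fun a => m ∣ a - a0) (Finset.filter_subset _ _) (by
      intro x hx y hy
      rw [Finset.mem_filter] at hx hy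
      have := dvd_sub hx.2 hy.2
      have e : x - a0 - (y - a0) = x - y := by ring
      rwa [e] at this)
  have hq : 0 < m * (p : ℤ) := by positivity
  have h3 := card_cls (q := m * (p : ℤ)) hX2 hq
    (s := (Finset.Ioc (0 : ℤ) ((X : ℤ) ^ 2)).filter fun a => m ∣ a - a0 ∧ (p : ℤ) ∣ a)
    (Finset.filter_subset _ _) (by
      intro x hx y hy
      rw [Finset.mem_filter] at hx hy
      apply hc.mul_dvd
      · have := dvd_sub hx.2.1 hy.2.1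
        have e : x - a0 - (y - a0) = x - y := by ring
        rwa [e] at this
      · exact dvd_sub hx.2.2 hy.2.2)
  push_cast at h2 h3
  rw [sub_zero] at h2 h3
  obtain ⟨x, hx'⟩ : ∃ x : ℝ, x = X := ⟨_, rfl⟩
  obtain ⟨α, hα⟩ : ∃ α : ℝ, α = (m : ℝ)⁻¹ := ⟨_, rfl⟩
  obtain ⟨β, hβ⟩ : ∃ β : ℝ, β = (p : ℝ)⁻¹ := ⟨_, rfl⟩
  have hα0 : 0 < α := by rw [hα]; positivity
  have hα1 : α ≤ 1 := by rw [hα]; exact inv_le_one_of_one_le₀ hm1
  have hβ0 : 0 < β := by rw [hβ]; positivity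
  have hβ1 : β ≤ 1 := by rw [hβ]; exact inv_le_one_of_one_le₀ hp1
  rw [← hx'] at h1 h2 h3 hx ⊢
  have e1 : (2 * x ^ 3 + 1) / (m * (p : ℝ) ^ 2) = (2 * x ^ 3 + 1) * (α * β ^ 2) := by
    rw [hα, hβ, div_eq_mul_inv, mul_inv, inv_pow]
  have e2 : (2 * x ^ 3 + 1) / (m * (p : ℝ)) = (2 * x ^ 3 + 1) * (α * β) := by
    rw [hα, hβ, div_eq_mul_inv, mul_inv]
  have e3 : x ^ 2 / (m : ℝ) = x ^ 2 * α := by rw [hα, div_eq_mul_inv]
  have e4 : x ^ 2 / (m * (p : ℝ)) = x ^ 2 * (α * β) := by rw [hα, hβ, div_eq_mul_inv, mul_inv]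
  have e5 : ((p : ℝ) ^ 2)⁻¹ = β ^ 2 := by rw [hβ, inv_pow]
  rw [e1, e2] at h1
  rw [e3] at h2
  rw [e4] at h3
  rw [e5, ← hα]
  have a1 : α * β ≤ 1 := mul_le_one₀ hα1 hβ0.le hβ1
  have a2 : α * β ^ 2 ≤ 1 := mul_le_one₀ hα1 (by positivity) (pow_le_one₀ hβ0.le hβ1)
  have a3 : α ^ 2 * β ^ 2 ≤ 1 := by
    rw [← mul_pow]
    exact pow_le_one₀ (by positivity) a1
  have a0' : 0 < α * β := by positivity
  have x23 : x ^ 2 ≤ x ^ 3 := pow_le_pow_right₀ hx (by norm_num)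
  have x03 : 1 ≤ x ^ 3 := one_le_pow₀ hx
  have b1 : (x ^ 2 * α + 1) * (2 * ((2 * x ^ 3 + 1) * (α * β ^ 2) + 1)) ≤
      4 * x ^ 5 * α ^ 2 * β ^ 2 + 12 * x ^ 3 := by
    have c1 : x ^ 2 * (α ^ 2 * β ^ 2) ≤ x ^ 2 := mul_le_of_le_one_right (by positivity) a3
    have c2 : x ^ 2 * α ≤ x ^ 2 := mul_le_of_le_one_right (by positivity) hα1
    have c3 : (2 * x ^ 3 + 1) * (α * β ^ 2) ≤ 2 * x ^ 3 + 1 :=
      mul_le_of_le_one_right (by positivity) a2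
    have e : (x ^ 2 * α + 1) * (2 * ((2 * x ^ 3 + 1) * (α * β ^ 2) + 1)) =
        4 * x ^ 5 * α ^ 2 * β ^ 2 + 2 * (x ^ 2 * (α ^ 2 * β ^ 2)) + 2 * (x ^ 2 * α) +
          2 * ((2 * x ^ 3 + 1) * (α * β ^ 2)) + 2 := by ring
    rw [e]
    linarith
  have b2 : (x ^ 2 * (α * β) + 1) * ((2 * x ^ 3 + 1) * (α * β) + 1) ≤
      2 * x ^ 5 * α ^ 2 * β ^ 2 + 6 * x ^ 3 := by
    have c1 : x ^ 2 * (α ^ 2 * β ^ 2) ≤ x ^ 2 := mul_le_of_le_one_right (by positivity) a3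
    have c2 : x ^ 2 * (α * β) ≤ x ^ 2 := mul_le_of_le_one_right (by positivity) a1
    have c3 : (2 * x ^ 3 + 1) * (α * β) ≤ 2 * x ^ 3 + 1 :=
      mul_le_of_le_one_right (by positivity) a1
    have e : (x ^ 2 * (α * β) + 1) * ((2 * x ^ 3 + 1) * (α * β) + 1) =
        2 * x ^ 5 * α ^ 2 * β ^ 2 + x ^ 2 * (α ^ 2 * β ^ 2) + x ^ 2 * (α * β) +
          (2 * x ^ 3 + 1) * (α * β) + 1 := by ring
    rw [e]
    linarith
  have d1 := mul_le_mul_of_nonneg_right h2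
    (show 0 ≤ 2 * ((2 * x ^ 3 + 1) * (α * β ^ 2) + 1) by positivity)
  have d2 := mul_le_mul_of_nonneg_right h3
    (show 0 ≤ (2 * x ^ 3 + 1) * (α * β) + 1 by positivity)
  linarith

/-- large primes -/
theorem card_large {p : ℕ} (hp : p.Prime) (hp5 : 5 ≤ p) {X : ℕ} (hX : 1 ≤ X) :
    ((Gs X 1 0 0 p).card : ℝ) ≤ 20 * (X : ℝ) ^ 5 * ((p : ℝ) ^ 2)⁻¹ + 4 * (X : ℝ) ^ 2 := by
  have h1 := card_Gs hp hp5 one_pos isCoprime_one_left X 0 0
  have hp1 : (1 : ℝ) ≤ p := by exact_mod_cast hp.one_le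
  have hx : (1 : ℝ) ≤ X := by exact_mod_cast hX
  have hX2 : (0 : ℤ) ≤ (X : ℤ) ^ 2 := by positivity
  have h2 := card_cls (q := 1) hX2 one_pos
    (s := (Finset.Ioc (0 : ℤ) ((X : ℤ) ^ 2)).filter fun a => (1 : ℤ) ∣ a - 0) (Finset.filter_subset _ _)
    (fun x _ y _ => one_dvd _)
  push_cast at h2
  rw [sub_zero, div_one] at h2
  have e0 : ((1 : ℤ) : ℝ) = 1 := by norm_num
  rw [e0, one_mul, one_mul] at h1
  obtain ⟨x, hx'⟩ : ∃ x : ℝ, x = X := ⟨_, rfl⟩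
  obtain ⟨β, hβ⟩ : ∃ β : ℝ, β = (p : ℝ)⁻¹ := ⟨_, rfl⟩
  have hβ0 : 0 < β := by rw [hβ]; positivity
  have hβ1 : β ≤ 1 := by rw [hβ]; exact inv_le_one_of_one_le₀ hp1
  have x23 : (X : ℝ) ^ 2 ≤ (X : ℝ) ^ 3 := pow_le_pow_right₀ hx (by norm_num)
  have x03 : 1 ≤ (X : ℝ) ^ 3 := one_le_pow₀ hx
  have x02 : 1 ≤ (X : ℝ) ^ 2 := one_le_pow₀ hx
  have e5 : ((p : ℝ) ^ 2)⁻¹ = β ^ 2 := by rw [hβ, inv_pow]
  have e1 : (2 * (X : ℝ) ^ 3 + 1) / (p : ℝ) ^ 2 = (2 * (X : ℝ) ^ 3 + 1) * β ^ 2 := by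
    rw [div_eq_mul_inv, e5]
  have e2 : (2 * (X : ℝ) ^ 3 + 1) / (p : ℝ) = (2 * (X : ℝ) ^ 3 + 1) * β := by
    rw [hβ, div_eq_mul_inv]
  rw [e1, e2] at h1
  rw [e5]
  have d1 : ((((Finset.Ioc (0 : ℤ) ((X : ℤ) ^ 2)).filter fun a => (1 : ℤ) ∣ a - 0).card : ℝ)) *
      (2 * ((2 * (X : ℝ) ^ 3 + 1) * β ^ 2 + 1)) ≤ 12 * (X : ℝ) ^ 5 * β ^ 2 + 4 * (X : ℝ) ^ 2 := by
    have c1 := mul_le_mul_of_nonneg_right (h2.trans (show (X : ℝ) ^ 2 + 1 ≤ 2 * (X : ℝ) ^ 2 by linarith))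
      (show 0 ≤ 2 * ((2 * (X : ℝ) ^ 3 + 1) * β ^ 2 + 1) by positivity)
    refine c1.trans ?_
    have c2 : (2 * (X : ℝ) ^ 3 + 1) * β ^ 2 ≤ 3 * (X : ℝ) ^ 3 * β ^ 2 :=
      mul_le_mul_of_nonneg_right (by linarith) (by positivity)
    have c3 := mul_le_mul_of_nonneg_left (show 2 * ((2 * (X : ℝ) ^ 3 + 1) * β ^ 2 + 1) ≤
      2 * (3 * (X : ℝ) ^ 3 * β ^ 2 + 1) by linarith) (show 0 ≤ 2 * (X : ℝ) ^ 2 by positivity)
    refine c3.trans (le_of_eq ?_)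
    ring
  have d2 : ((((Finset.Ioc (0 : ℤ) ((X : ℤ) ^ 2)).filter fun a => (1 : ℤ) ∣ a - 0 ∧
      (p : ℤ) ∣ a).card : ℝ)) * ((2 * (X : ℝ) ^ 3 + 1) * β + 1) ≤ 8 * (X : ℝ) ^ 5 * β ^ 2 := by
    by_cases hpX : (p : ℤ) ≤ (X : ℤ) ^ 2
    · have h3 := card_cls (q := (p : ℤ)) hX2 (by exact_mod_cast hp.pos)
        (s := (Finset.Ioc (0 : ℤ) ((X : ℤ) ^ 2)).filter fun a => (1 : ℤ) ∣ a - 0 ∧ (p : ℤ) ∣ a)
        (Finset.filter_subset _ _) (by
          intro x hx y hy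
          rw [Finset.mem_filter] at hx hy
          exact dvd_sub hx.2.2 hy.2.2)
      push_cast at h3
      have hpX' : (p : ℝ) ≤ (X : ℝ) ^ 2 := by exact_mod_cast hpX
      have e6 : (p : ℝ) * β = 1 := by rw [hβ]; field_simp
      have e7 : 1 ≤ (X : ℝ) ^ 2 * β := by
        rw [← e6]
        exact mul_le_mul_of_nonneg_right hpX' hβ0.le
      have e8 : 1 ≤ (X : ℝ) ^ 3 * β := e7.trans (mul_le_mul_of_nonneg_right x23 hβ0.le)
      have e9 : ((X : ℝ) ^ 2 - 0) / (p : ℝ) + 1 ≤ 2 * (X : ℝ) ^ 2 * β := by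
        rw [sub_zero, div_eq_mul_inv, ← hβ]
        linarith
      have e10 : (2 * (X : ℝ) ^ 3 + 1) * β + 1 ≤ 4 * (X : ℝ) ^ 3 * β := by
        have : 1 * β ≤ (X : ℝ) ^ 3 * β := mul_le_mul_of_nonneg_right x03 hβ0.le
        linarith
      have c1 := mul_le_mul (h3.trans e9) e10 (by positivity) (by positivity)
      refine c1.trans (le_of_eq ?_)
      ring
    · have h4 : ((Finset.Ioc (0 : ℤ) ((X : ℤ) ^ 2)).filter fun a => (1 : ℤ) ∣ a - 0 ∧ (p : ℤ) ∣ a) = ∅ := by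
        rw [Finset.filter_eq_empty_iff]
        intro a ha hpa
        rw [Finset.mem_Ioc] at ha
        have := Int.le_of_dvd ha.1 hpa.2
        omega
      rw [h4, Finset.card_empty]
      push_cast
      rw [zero_mul]
      positivity
  linarith

/-! ### Prime numbers -/

theorem pi_small {ε : ℝ} (hε : 0 < ε) :
    ∀ᶠ X : ℕ in atTop, (Nat.primeCounting (6 * X ^ 3) : ℝ) ≤ ε * (X : ℝ) ^ 3 := by
  have h1 := Chebyshev.eventually_primeCounting_le one_pos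
  have h2 : Tendsto (fun x : ℝ => (Real.log 4 + 1) / Real.log x) atTop (nhds 0) :=
    Tendsto.div_atTop tendsto_const_nhds Real.tendsto_log_atTop
  have h3 : ∀ᶠ x : ℝ in atTop, (Real.log 4 + 1) / Real.log x < ε / 6 :=
    h2.eventually_lt_const (by positivity)
  have h4 : ∀ᶠ x : ℝ in atTop, (Nat.primeCounting ⌊x⌋₊ : ℝ) ≤ ε / 6 * x := by
    filter_upwards [h1, h3, eventually_ge_atTop 0] with x hx1 hx2 hx3
    refine hx1.trans ?_
    rw [mul_div_right_comm]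
    exact mul_le_mul_of_nonneg_right hx2.le hx3
  have h5 : Tendsto (fun X : ℕ => ((6 * X ^ 3 : ℕ) : ℝ)) atTop atTop := by
    apply tendsto_natCast_atTop_atTop.comp
    apply tendsto_atTop_mono (f := fun X : ℕ => X) _ tendsto_id
    intro X
    rcases Nat.eq_zero_or_pos X with h | h
    · simp [h]
    · have : X ^ 1 ≤ X ^ 3 := Nat.pow_le_pow_right h (by norm_num)
      rw [pow_one] at this
      linarith
  filter_upwards [h5.eventually h4] with X hX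
  rw [Nat.floor_natCast] at hX
  refine hX.trans (le_of_eq ?_)
  push_cast
  ring

/-- the factor `p ^ 2` -/
theorem exists_p {a b : ℤ} (ha : 0 < a) (h : ¬ Squarefree (dsc a b)) :
    ∃ p : ℕ, p.Prime ∧ (p : ℤ) ^ 2 ∣ dsc a b := by
  have hd : 0 < dsc a b := by unfold dsc; positivity
  unfold Squarefree at h
  push Not at h
  obtain ⟨x, hx, hu⟩ := h
  have h1 : x.natAbs ≠ 1 := by
    intro h1
    exact hu (Int.isUnit_iff_natAbs_eq.2 h1)
  refine ⟨x.natAbs.minFac, Nat.minFac_prime h1, ?_⟩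
  have h2 : ((x.natAbs.minFac : ℕ) : ℤ) ∣ x := by
    rw [Int.natCast_dvd]
    exact Nat.minFac_dvd _
  rw [sq]
  exact (mul_dvd_mul h2 h2).trans hx

theorem p_le {X : ℕ} {a b : ℤ} (ha : 0 < a) (ha2 : a ≤ (X : ℤ) ^ 2) (hb1 : -(X : ℤ) ^ 3 ≤ b)
    (hb2 : b ≤ (X : ℤ) ^ 3) {p : ℕ} (h : (p : ℤ) ^ 2 ∣ dsc a b) : p ≤ 6 * X ^ 3 := by
  have hd : 0 < dsc a b := by unfold dsc; positivity
  have h1 := Int.le_of_dvd hd h
  have h2 : b ^ 2 ≤ ((X : ℤ) ^ 3) ^ 2 := sq_le_sq' hb1 hb2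
  have h3 : a ^ 3 ≤ ((X : ℤ) ^ 2) ^ 3 := pow_le_pow_left₀ ha.le ha2 3
  have h4 : (p : ℤ) ^ 2 ≤ (6 * (X : ℤ) ^ 3) ^ 2 := by
    unfold dsc at h1
    have h5 : (0 : ℤ) ≤ (X : ℤ) ^ 6 := by positivity
    have e1 : ((X : ℤ) ^ 3) ^ 2 = (X : ℤ) ^ 6 := by ring
    have e2 : ((X : ℤ) ^ 2) ^ 3 = (X : ℤ) ^ 6 := by ring
    have e3 : (6 * (X : ℤ) ^ 3) ^ 2 = 36 * (X : ℤ) ^ 6 := by ring
    rw [e1] at h2
    rw [e2] at h3
    rw [e3]
    linarith
  have h5 : (p : ℤ) ≤ 6 * (X : ℤ) ^ 3 := le_of_sq_le_sq h4 (by positivity)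
  exact_mod_cast h5

/-! ### The sieve -/

/-- the pairs in the box in a residue class -/
noncomputable def Bx (X : ℕ) (m a0 b0 : ℤ) : Finset (ℤ × ℤ) :=
  ((Finset.Ioc (0 : ℤ) ((X : ℤ) ^ 2)).filter fun a => m ∣ a - a0) ×ˢ
    ((Finset.Ioc (-(X : ℤ) ^ 3 - 1) ((X : ℤ) ^ 3)).filter fun b => m ∣ b - b0)

theorem card_Bx {m : ℤ} (hm : 0 < m) {X : ℕ} (hX : 1 ≤ X) (hmX : m ≤ X) (a0 b0 : ℤ) :
    2 * (X : ℝ) ^ 5 * (m : ℝ)⁻¹ ^ 2 - 4 * (X : ℝ) ^ 3 ≤ ((Bx X m a0 b0).card : ℝ) := by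
  have hm1 : (1 : ℝ) ≤ m := by exact_mod_cast hm
  have hx : (1 : ℝ) ≤ X := by exact_mod_cast hX
  have hmX' : (m : ℝ) ≤ X := by exact_mod_cast hmX
  have h1 := card_cls_ge (u := 0) (v := (X : ℤ) ^ 2) hm a0
  have h2 := card_cls_ge (u := -(X : ℤ) ^ 3 - 1) (v := (X : ℤ) ^ 3) hm b0
  unfold Bx
  rw [Finset.card_product]
  push_cast at h1 h2 ⊢
  rw [sub_zero] at h1
  obtain ⟨α, hα⟩ : ∃ α : ℝ, α = (m : ℝ)⁻¹ := ⟨_, rfl⟩
  have hα0 : 0 < α := by rw [hα]; positivity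
  have hα1 : α ≤ 1 := by rw [hα]; exact inv_le_one_of_one_le₀ hm1
  have hmα : (m : ℝ) * α = 1 := by rw [hα]; field_simp
  have hXα : 1 ≤ (X : ℝ) * α := by
    rw [← hmα]
    exact mul_le_mul_of_nonneg_right hmX' hα0.le
  have x12 : (X : ℝ) ≤ (X : ℝ) ^ 2 := by nlinarith
  have x23 : (X : ℝ) ^ 2 ≤ (X : ℝ) ^ 3 := pow_le_pow_right₀ hx (by norm_num)
  have x03 : 1 ≤ (X : ℝ) ^ 3 := one_le_pow₀ hx
  rw [div_eq_mul_inv, ← hα] at h1 h2
  rw [← hα]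
  have c1 : 0 ≤ (X : ℝ) ^ 2 * α - 1 := by
    have := mul_le_mul_of_nonneg_right x12 hα0.le
    linarith
  have c2 : 0 ≤ ((X : ℝ) ^ 3 - (-(X : ℝ) ^ 3 - 1)) * α - 1 := by
    have := mul_le_mul_of_nonneg_right (show (X : ℝ) ≤ (X : ℝ) ^ 3 - (-(X : ℝ) ^ 3 - 1) by linarith)
      hα0.le
    linarith
  refine le_trans ?_ (mul_le_mul h1 h2 c2 (c1.trans h1))
  have c3 : (X : ℝ) ^ 2 * α ≤ (X : ℝ) ^ 2 := mul_le_of_le_one_right (by positivity) hα1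
  have c4 : (2 * (X : ℝ) ^ 3 + 1) * α ≤ 2 * (X : ℝ) ^ 3 + 1 :=
    mul_le_of_le_one_right (by positivity) hα1
  have c5 : 0 ≤ (X : ℝ) ^ 2 * α ^ 2 := by positivity
  have e : ((X : ℝ) ^ 2 * α - 1) * (((X : ℝ) ^ 3 - (-(X : ℝ) ^ 3 - 1)) * α - 1) =
      2 * (X : ℝ) ^ 5 * α ^ 2 + (X : ℝ) ^ 2 * α ^ 2 - (X : ℝ) ^ 2 * α -
        (2 * (X : ℝ) ^ 3 + 1) * α + 1 := by ring
  rw [e]
  linarith

theorem bad_le {m : ℤ} (hm : 0 < m) {X : ℕ} (hX : 1 ≤ X) (a0 b0 : ℤ) (Y : ℕ) (hY : 4 ≤ Y)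
    (hdv : ∀ a b : ℤ, m ∣ a - a0 → m ∣ b - b0 → ∀ p : ℕ, p.Prime → (p : ℤ) ^ 2 ∣ dsc a b →
      5 ≤ p ∧ IsCoprime m (p : ℤ)) :
    ((((Bx X m a0 b0).filter fun q => ¬ Squarefree (dsc q.1 q.2)).card : ℝ)) ≤
      3 / 2 * (X : ℝ) ^ 5 * (m : ℝ)⁻¹ ^ 2 + 18 * Y * (X : ℝ) ^ 3 + 20 * (X : ℝ) ^ 5 / Y +
        4 * (X : ℝ) ^ 2 * (Nat.primeCounting (6 * X ^ 3) : ℝ) := by
  obtain ⟨P, hP⟩ : ∃ P : Finset ℕ, P = (Finset.range (6 * X ^ 3 + 1)).filter fun p : ℕ =>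
    p.Prime ∧ 5 ≤ p ∧ IsCoprime m (p : ℤ) := ⟨_, rfl⟩
  have hPm : ∀ p : ℕ, p ∈ P ↔ p < 6 * X ^ 3 + 1 ∧ p.Prime ∧ 5 ≤ p ∧ IsCoprime m (p : ℤ) := by
    intro p
    rw [hP, Finset.mem_filter, Finset.mem_range]
  have hm1 : (1 : ℝ) ≤ m := by exact_mod_cast hm
  have hsub : ((Bx X m a0 b0).filter fun q => ¬ Squarefree (dsc q.1 q.2)) ⊆
      P.biUnion fun p => Gs X m a0 b0 p := by
    intro q hq
    rw [Finset.mem_filter] at hq
    obtain ⟨hq1, hq2⟩ := hq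
    unfold Bx at hq1
    simp only [Finset.mem_product, Finset.mem_filter, Finset.mem_Ioc] at hq1
    obtain ⟨⟨⟨h1, h2⟩, h3⟩, ⟨h4, h5⟩, h6⟩ := hq1
    obtain ⟨p, hp, hpd⟩ := exists_p h1 hq2
    have h7 := hdv q.1 q.2 h3 h6 p hp hpd
    have h8 : p ≤ 6 * X ^ 3 := p_le h1 h2 (by linarith) h5 hpd
    rw [Finset.mem_biUnion]
    refine ⟨p, (hPm p).2 ⟨by omega, hp, h7⟩, ?_⟩
    unfold Gs
    simp only [Finset.mem_product, Finset.mem_filter, Finset.mem_Ioc]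
    exact ⟨⟨⟨h1, h2⟩, h4, h5⟩, h3, h6, hpd⟩
  have h1 : ((((Bx X m a0 b0).filter fun q => ¬ Squarefree (dsc q.1 q.2)).card : ℝ)) ≤
      ∑ p ∈ P, ((Gs X m a0 b0 p).card : ℝ) := by
    have h2 := (Finset.card_le_card hsub).trans Finset.card_biUnion_le
    exact_mod_cast h2
  refine h1.trans ?_
  rw [← Finset.sum_filter_add_sum_filter_not P (fun p => p ≤ Y)]
  -- small primes
  have h2 : ∑ p ∈ P.filter (fun p => p ≤ Y), ((Gs X m a0 b0 p).card : ℝ) ≤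
      3 / 2 * (X : ℝ) ^ 5 * (m : ℝ)⁻¹ ^ 2 + 18 * Y * (X : ℝ) ^ 3 := by
    have h3 : ∑ p ∈ P.filter (fun p => p ≤ Y), ((Gs X m a0 b0 p).card : ℝ) ≤
        ∑ p ∈ Finset.Ioc 4 Y, (6 * (X : ℝ) ^ 5 * (m : ℝ)⁻¹ ^ 2 * ((p : ℝ) ^ 2)⁻¹ +
          18 * (X : ℝ) ^ 3) := by
      refine (Finset.sum_le_sum (g := fun p : ℕ => (6 * (X : ℝ) ^ 5 * (m : ℝ)⁻¹ ^ 2 *
        ((p : ℝ) ^ 2)⁻¹ + 18 * (X : ℝ) ^ 3)) ?_).trans ?_
      · intro p hp
        obtain ⟨h4, h5⟩ := Finset.mem_filter.1 hp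
        obtain ⟨-, h6, h7, h8⟩ := (hPm p).1 h4
        exact card_small h6 h7 hm h8 hX a0 b0
      · apply Finset.sum_le_sum_of_subset_of_nonneg
        · intro p hp
          obtain ⟨h4, h5⟩ := Finset.mem_filter.1 hp
          obtain ⟨-, h6, h7, h8⟩ := (hPm p).1 h4
          rw [Finset.mem_Ioc]
          exact ⟨by omega, h5⟩
        · intro p _ _
          positivity
    refine h3.trans ?_
    rw [Finset.sum_add_distrib, ← Finset.mul_sum, Finset.sum_const, Nat.card_Ioc, nsmul_eq_mul]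
    have h4 := sum_Ioc_inv_sq_le_sub (α := ℝ) (k := 4) (by norm_num) hY
    have h5 : (0 : ℝ) ≤ (Y : ℝ)⁻¹ := by positivity
    have h6 : ∑ i ∈ Finset.Ioc 4 Y, ((i : ℝ) ^ 2)⁻¹ ≤ 1 / 4 := by
      refine h4.trans ?_
      push_cast
      linarith
    have h7 := mul_le_mul_of_nonneg_left h6
      (show 0 ≤ 6 * (X : ℝ) ^ 5 * (m : ℝ)⁻¹ ^ 2 by positivity)
    have h8 : ((Y - 4 : ℕ) : ℝ) ≤ Y := by exact_mod_cast Nat.sub_le _ _
    have h9 := mul_le_mul_of_nonneg_right h8 (show 0 ≤ 18 * (X : ℝ) ^ 3 by positivity)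
    linarith
  -- large primes
  have h3 : ∑ p ∈ P.filter (fun p => ¬ p ≤ Y), ((Gs X m a0 b0 p).card : ℝ) ≤
      20 * (X : ℝ) ^ 5 / Y + 4 * (X : ℝ) ^ 2 * (Nat.primeCounting (6 * X ^ 3) : ℝ) := by
    have h4 : ∑ p ∈ P.filter (fun p => ¬ p ≤ Y), ((Gs X m a0 b0 p).card : ℝ) ≤
        ∑ p ∈ P.filter (fun p => ¬ p ≤ Y), (20 * (X : ℝ) ^ 5 * ((p : ℝ) ^ 2)⁻¹ +
          4 * (X : ℝ) ^ 2) := by
      apply Finset.sum_le_sum
      intro p hp
      obtain ⟨h4, h5⟩ := Finset.mem_filter.1 hp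
      obtain ⟨-, h6, h7, h8⟩ := (hPm p).1 h4
      refine le_trans ?_ (card_large h6 h7 hX)
      have h9 : Gs X m a0 b0 p ⊆ Gs X 1 0 0 p := by
        intro q hq
        unfold Gs at hq ⊢
        rw [Finset.mem_filter] at hq ⊢
        exact ⟨hq.1, one_dvd _, one_dvd _, hq.2.2.2⟩
      exact_mod_cast Finset.card_le_card h9
    refine h4.trans ?_
    rw [Finset.sum_add_distrib, ← Finset.mul_sum, Finset.sum_const, nsmul_eq_mul]
    have h5 : ∑ p ∈ P.filter (fun p => ¬ p ≤ Y), ((p : ℝ) ^ 2)⁻¹ ≤ (Y : ℝ)⁻¹ := by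
      have h6 : ∑ p ∈ P.filter (fun p => ¬ p ≤ Y), ((p : ℝ) ^ 2)⁻¹ ≤
          ∑ p ∈ Finset.Ioc Y (max Y (6 * X ^ 3)), ((p : ℝ) ^ 2)⁻¹ := by
        apply Finset.sum_le_sum_of_subset_of_nonneg
        · intro p hp
          obtain ⟨h4, h5⟩ := Finset.mem_filter.1 hp
          obtain ⟨h6, -⟩ := (hPm p).1 h4
          rw [Finset.mem_Ioc]
          exact ⟨by omega, le_max_of_le_right (by omega)⟩
        · intro p _ _
          positivity
      refine h6.trans ((sum_Ioc_inv_sq_le_sub (α := ℝ) (by omega) (le_max_left _ _)).trans ?_)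
      have : (0 : ℝ) ≤ ((max Y (6 * X ^ 3) : ℕ) : ℝ)⁻¹ := by positivity
      linarith
    have h6 : ((P.filter (fun p => ¬ p ≤ Y)).card : ℝ) ≤ (Nat.primeCounting (6 * X ^ 3) : ℝ) := by
      have h7 : (P.filter (fun p => ¬ p ≤ Y)) ⊆ (Finset.range (6 * X ^ 3 + 1)).filter Nat.Prime := by
        intro p hp
        obtain ⟨h4, h5⟩ := Finset.mem_filter.1 hp
        obtain ⟨h6, h7, -⟩ := (hPm p).1 h4
        rw [Finset.mem_filter, Finset.mem_range]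
        exact ⟨h6, h7⟩
      have h8 := Finset.card_le_card h7
      have h9 : ((Finset.range (6 * X ^ 3 + 1)).filter Nat.Prime).card =
          Nat.primeCounting (6 * X ^ 3) := by
        rw [Nat.primeCounting, Nat.primeCounting', Nat.count_eq_card_filter_range]
      rw [h9] at h8
      exact_mod_cast h8
    have h7 := mul_le_mul_of_nonneg_left h5 (show 0 ≤ 20 * (X : ℝ) ^ 5 by positivity)
    have h8 := mul_le_mul_of_nonneg_right h6 (show 0 ≤ 4 * (X : ℝ) ^ 2 by positivity)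
    rw [div_eq_mul_inv]
    linarith
  linarith

/-- the number of good pairs -/
theorem good_ge {m : ℤ} (hm : 0 < m) (a0 b0 : ℤ)
    (hdv : ∀ a b : ℤ, m ∣ a - a0 → m ∣ b - b0 → ∀ p : ℕ, p.Prime → (p : ℤ) ^ 2 ∣ dsc a b →
      5 ≤ p ∧ IsCoprime m (p : ℤ)) :
    ∀ᶠ X : ℕ in atTop, 1 / 4 * (X : ℝ) ^ 5 * (m : ℝ)⁻¹ ^ 2 ≤
      ((((Bx X m a0 b0).filter fun q => Squarefree (dsc q.1 q.2)).card : ℝ)) := by
  have hm1 : (1 : ℝ) ≤ m := by exact_mod_cast hm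
  obtain ⟨n, rfl⟩ : ∃ n : ℕ, m = n := ⟨m.toNat, by omega⟩
  have hn : 0 < n := by exact_mod_cast hm
  have hnR : (1 : ℝ) ≤ (n : ℝ) := by exact_mod_cast hn
  obtain ⟨Y, hY⟩ : ∃ Y : ℕ, Y = 160 * n ^ 2 := ⟨_, rfl⟩
  have hY4 : 4 ≤ Y := by
    have : 1 ≤ n ^ 2 := Nat.one_le_pow _ _ hn
    omega
  obtain ⟨α, hα⟩ : ∃ α : ℝ, α = (n : ℝ)⁻¹ := ⟨_, rfl⟩
  have hα0 : 0 < α := by rw [hα]; positivity
  have hnα : (n : ℝ) * α = 1 := by rw [hα]; field_simp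
  have hYR : (Y : ℝ) * α ^ 2 = 160 := by
    rw [hY]
    push_cast
    have : 160 * (n : ℝ) ^ 2 * α ^ 2 = 160 * ((n : ℝ) * α) ^ 2 := by ring
    rw [this, hnα]
    norm_num
  have hY0 : (0 : ℝ) < Y := by
    have : 0 < Y := by omega
    exact_mod_cast this
  have hYi : (20 : ℝ) / Y = α ^ 2 / 8 := by
    rw [div_eq_div_iff hY0.ne' (by norm_num)]
    linarith
  have hev1 := pi_small (ε := α ^ 2 / 64) (by positivity)
  have hev2 : ∀ᶠ X : ℕ in atTop, (16 * (18 * (Y : ℝ) + 4)) / α ^ 2 ≤ (X : ℝ) ^ 2 := by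
    have h1 : Tendsto (fun X : ℕ => (X : ℝ) ^ 2) atTop atTop :=
      (tendsto_pow_atTop (by norm_num)).comp tendsto_natCast_atTop_atTop
    exact h1.eventually_ge_atTop _
  filter_upwards [hev1, hev2, eventually_ge_atTop 1, eventually_ge_atTop n] with X h1 h2 hX hnX
  have hx : (1 : ℝ) ≤ X := by exact_mod_cast hX
  have h3 := card_Bx hm hX (by exact_mod_cast hnX) a0 b0
  have h4 := bad_le hm hX a0 b0 Y hY4 hdv
  have h5 := Finset.card_filter_add_card_filter_not (s := Bx X (n : ℤ) a0 b0)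
    (fun q : ℤ × ℤ => Squarefree (dsc q.1 q.2))
  have h6 : ((Bx X (n : ℤ) a0 b0).card : ℝ) =
      ((((Bx X (n : ℤ) a0 b0).filter fun q => Squarefree (dsc q.1 q.2)).card : ℝ)) +
      ((((Bx X (n : ℤ) a0 b0).filter fun q => ¬ Squarefree (dsc q.1 q.2)).card : ℝ)) := by
    exact_mod_cast h5.symm
  have hcast : (((n : ℤ)) : ℝ) = (n : ℝ) := by push_cast; rfl
  rw [hcast, ← hα] at h3 h4 ⊢
  have h7 : 20 * (X : ℝ) ^ 5 / Y = (X : ℝ) ^ 5 * (α ^ 2 / 8) := by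
    rw [← hYi]
    ring
  rw [h7] at h4
  have h8 : 4 * (X : ℝ) ^ 2 * (Nat.primeCounting (6 * X ^ 3) : ℝ) ≤ (X : ℝ) ^ 5 * (α ^ 2 / 16) := by
    have := mul_le_mul_of_nonneg_left h1 (show 0 ≤ 4 * (X : ℝ) ^ 2 by positivity)
    refine this.trans (le_of_eq ?_)
    ring
  have h9 : (18 * (Y : ℝ) + 4) * (X : ℝ) ^ 3 ≤ (X : ℝ) ^ 5 * (α ^ 2 / 16) := by
    rw [div_le_iff₀ (by positivity)] at h2
    have := mul_le_mul_of_nonneg_right h2 (show 0 ≤ (X : ℝ) ^ 3 / 16 by positivity)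
    have e1 : (16 * (18 * (Y : ℝ) + 4)) * ((X : ℝ) ^ 3 / 16) = (18 * (Y : ℝ) + 4) * (X : ℝ) ^ 3 := by
      ring
    have e2 : (X : ℝ) ^ 2 * α ^ 2 * ((X : ℝ) ^ 3 / 16) = (X : ℝ) ^ 5 * (α ^ 2 / 16) := by ring
    rw [e1, e2] at this
    exact this
  nlinarith [h3, h4, h6, h8, h9]

/-! ### The theorem -/

/-- the Chinese remainder theorem -/
theorem crt {W : Finset ℤ} (hW : ∀ Q ∈ W, IsPr Q) (f : ℤ → ℤ) : ∃ r : ℤ, ∀ Q ∈ W, Q ∣ r - f Q := by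
  obtain ⟨r, hr⟩ := IsDedekindDomain.exists_forall_sub_mem_ideal (s := W)
    (fun Q : ℤ => Ideal.span {Q}) (fun _ => 1)
    (fun Q hQ => (Ideal.span_singleton_prime (hW Q hQ).2.ne_zero).2 (hW Q hQ).2 |> fun h =>
      Ideal.prime_of_isPrime (by
        rw [Ne, Ideal.span_singleton_eq_bot]
        exact (hW Q hQ).2.ne_zero) h)
    (fun Q hQ Q' hQ' hne h => by
      apply hne
      rw [Ideal.span_singleton_eq_span_singleton] at h
      exact Int.eq_of_associated_of_nonneg h (hW Q hQ).1.le (hW Q' hQ').1.le)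
    (fun Q => f Q)
  refine ⟨r, fun Q hQ => ?_⟩
  have := hr Q hQ
  rwa [pow_one, Ideal.mem_span_singleton] at this

theorem fam : S_FAM := by
  intro T A B hT
  have hTpos : ∀ P ∈ T, (0 : ℝ) < (P : ℝ) ^ 2 := by
    intro P hP
    have : (0 : ℝ) < P := by exact_mod_cast (hT.2.2 P hP).1.1
    positivity
  have hTprod : 0 < ∏ P ∈ T, (P : ℝ) ^ 2 := Finset.prod_pos hTpos
  refine ⟨1 / (4 * ∏ P ∈ T, (P : ℝ) ^ 2), by positivity, ?_⟩
  intro S s hS hST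
  have hSpos : ∀ Q ∈ S, (0 : ℝ) < (Q : ℝ) ^ 2 := by
    intro Q hQ
    have : (0 : ℝ) < Q := by exact_mod_cast (hS Q hQ).1.1
    positivity
  have hSprod : 0 < ∏ Q ∈ S, (Q : ℝ) ^ 2 := Finset.prod_pos hSpos
  have hW : ∀ Q ∈ S ∪ T, IsPr Q := by
    intro Q hQ
    rcases Finset.mem_union.1 hQ with h | h
    · exact (hS Q h).1
    · exact (hT.2.2 Q h).1
  obtain ⟨a0, ha0⟩ := crt hW fun Q => if Q ∈ S then s Q else A Q
  obtain ⟨b0, hb0⟩ := crt hW fun Q => if Q ∈ S then 0 else B Q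
  obtain ⟨m, hmdef⟩ : ∃ m : ℤ, m = ∏ Q ∈ S ∪ T, Q := ⟨_, rfl⟩
  have hm : 0 < m := by
    rw [hmdef]
    exact Finset.prod_pos fun Q hQ => (hW Q hQ).1
  have hmd : ∀ Q ∈ S ∪ T, Q ∣ m := by
    intro Q hQ
    rw [hmdef]
    exact Finset.dvd_prod_of_mem (fun Q : ℤ => Q) hQ
  have hSa : ∀ Q ∈ S, Q ∣ a0 - s Q := by
    intro Q hQ
    have := ha0 Q (Finset.mem_union_left _ hQ)
    rwa [if_pos hQ] at this
  have hSb : ∀ Q ∈ S, Q ∣ b0 := by
    intro Q hQ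
    have := hb0 Q (Finset.mem_union_left _ hQ)
    rwa [if_pos hQ, sub_zero] at this
  have hTa : ∀ P ∈ T, P ∣ a0 - A P := by
    intro P hP
    have := ha0 P (Finset.mem_union_right _ hP)
    rwa [if_neg (Finset.disjoint_right.1 hST hP)] at this
  have hTb : ∀ P ∈ T, P ∣ b0 - B P := by
    intro P hP
    have := hb0 P (Finset.mem_union_right _ hP)
    rwa [if_neg (Finset.disjoint_right.1 hST hP)] at this
  -- the residues of `a` and `b`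
  have hres : ∀ a b : ℤ, m ∣ a - a0 → m ∣ b - b0 → (∀ Q ∈ S, Q ∣ a - s Q) ∧ (∀ Q ∈ S, Q ∣ b) ∧
      (∀ P ∈ T, P ∣ a - A P) ∧ ∀ P ∈ T, P ∣ b - B P := by
    intro a b ha hb
    refine ⟨fun Q hQ => ?_, fun Q hQ => ?_, fun Q hQ => ?_, fun Q hQ => ?_⟩
    · have := dvd_add ((hmd Q (Finset.mem_union_left _ hQ)).trans ha) (hSa Q hQ)
      have e : a - a0 + (a0 - s Q) = a - s Q := by ring
      rwa [e] at this
    · have := dvd_add ((hmd Q (Finset.mem_union_left _ hQ)).trans hb) (hSb Q hQ)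
      have e : b - b0 + b0 = b := by ring
      rwa [e] at this
    · have := dvd_add ((hmd Q (Finset.mem_union_right _ hQ)).trans ha) (hTa Q hQ)
      have e : a - a0 + (a0 - A Q) = a - A Q := by ring
      rwa [e] at this
    · have := dvd_add ((hmd Q (Finset.mem_union_right _ hQ)).trans hb) (hTb Q hQ)
      have e : b - b0 + (b0 - B Q) = b - B Q := by ring
      rwa [e] at this
  -- the primes which divide `m` do not divide the discriminant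
  have hnd : ∀ a b : ℤ, m ∣ a - a0 → m ∣ b - b0 → ∀ Q ∈ S ∪ T, ¬ Q ∣ dsc a b := by
    intro a b ha hb Q hQ hd
    obtain ⟨r1, r2, r3, r4⟩ := hres a b ha hb
    obtain ⟨hQ0, hQp⟩ := hW Q hQ
    rcases Finset.mem_union.1 hQ with h | h
    · obtain ⟨-, h8, hz⟩ := hS Q h
      -- `Q` divides `4 a ^ 3`
      have h1 : Q ∣ 4 * a ^ 3 := by
        have h2 : Q ∣ 27 * b ^ 2 := (dvd_pow (r2 Q h) (by norm_num)).mul_left 27
        exact (Int.dvd_add_left h2).1 hd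
      have h2 : Q ∣ a := by
        rcases hQp.dvd_or_dvd h1 with h3 | h3
        · exfalso
          have := Int.le_of_dvd (by norm_num) h3
          have : Q ≠ 1 := fun h1 => hQp.not_unit (h1 ▸ isUnit_one)
          omega
        · exact hQp.dvd_of_dvd_pow h3
      apply hz 0
      have h3 := dvd_sub h2 (r1 Q h)
      have e : a - (a - s Q) = 0 ^ 2 + s Q := by ring
      rwa [e] at h3
    · obtain ⟨-, hz⟩ := hT.2.2 Q h
      have h1 : Q ∣ 4 * (A Q) ^ 3 + 27 * (B Q) ^ 2 := by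
        have e1 : Q ∣ a ^ 3 - (A Q) ^ 3 := (r3 Q h).trans (sub_dvd_pow_sub_pow _ _ 3)
        have e2 : Q ∣ b ^ 2 - (B Q) ^ 2 := (r4 Q h).trans (sub_dvd_pow_sub_pow _ _ 2)
        have e3 := dvd_sub hd (dvd_add (e1.mul_left 4) (e2.mul_left 27))
        have e : dsc a b - (4 * (a ^ 3 - (A Q) ^ 3) + 27 * (b ^ 2 - (B Q) ^ 2)) =
            4 * (A Q) ^ 3 + 27 * (B Q) ^ 2 := by unfold dsc; ring
        rwa [e] at e3
      obtain ⟨z, hz'⟩ := root_of (hW Q hQ) h1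
      exact hz z hz'
  have hdv : ∀ a b : ℤ, m ∣ a - a0 → m ∣ b - b0 → ∀ p : ℕ, p.Prime → (p : ℤ) ^ 2 ∣ dsc a b →
      5 ≤ p ∧ IsCoprime m (p : ℤ) := by
    intro a b ha hb p hp hpd
    have hpp := Nat.prime_iff_prime_int.1 hp
    have hpd1 : (p : ℤ) ∣ dsc a b := (dvd_pow_self _ two_ne_zero).trans hpd
    have h1 : ∀ Q ∈ S ∪ T, (p : ℤ) ≠ Q := fun Q hQ h => hnd a b ha hb Q hQ (h ▸ hpd1)
    constructor
    · have h2 := h1 2 (Finset.mem_union_right _ hT.1)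
      have h3 := h1 3 (Finset.mem_union_right _ hT.2.1)
      have h4 := hp.two_le
      by_contra hlt
      push Not at hlt
      have h5 : p = 4 := by omega
      rw [h5] at hp
      exact absurd hp (by norm_num)
    · rw [isCoprime_comm]
      apply hpp.coprime_iff_not_dvd.2
      intro h2
      rw [hmdef, hpp.dvd_finsetProd_iff] at h2
      obtain ⟨Q, hQ, hpQ⟩ := h2
      apply h1 Q hQ
      have h3 := (hpp.dvd_prime_iff_associated (hW Q hQ).2).1 hpQ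
      exact Int.eq_of_associated_of_nonneg h3 (by positivity) (hW Q hQ).1.le
  have hgood := good_ge hm a0 b0 hdv
  rw [eventually_atTop] at hgood
  obtain ⟨X₀, hX₀⟩ := hgood
  refine ⟨X₀, fun X hX => ?_⟩
  have h1 := hX₀ X hX
  have hsub : (((Bx X m a0 b0).filter fun q => Squarefree (dsc q.1 q.2) : Finset (ℤ × ℤ)) :
      Set (ℤ × ℤ)) ⊆ {p : ℤ × ℤ | Fam X S s T A B p.1 p.2} := by
    intro q hq
    rw [Finset.mem_coe, Finset.mem_filter] at hq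
    obtain ⟨hq1, hq2⟩ := hq
    unfold Bx at hq1
    simp only [Finset.mem_product, Finset.mem_filter, Finset.mem_Ioc] at hq1
    obtain ⟨⟨⟨h1, h2⟩, h3⟩, ⟨h4, h5⟩, h6⟩ := hq1
    obtain ⟨r1, r2, r3, r4⟩ := hres q.1 q.2 h3 h6
    exact ⟨h1, h2, abs_le.2 ⟨by linarith, h5⟩, r1, r2, r3, r4, hq2⟩
  have hfin : {p : ℤ × ℤ | Fam X S s T A B p.1 p.2}.Finite := by
    apply Set.Finite.subset (((Finset.Ioc (0 : ℤ) ((X : ℤ) ^ 2)) ×ˢ
      (Finset.Icc (-(X : ℤ) ^ 3) ((X : ℤ) ^ 3)) : Finset (ℤ × ℤ)).finite_toSet)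
    intro q hq
    rw [Finset.mem_coe, Finset.mem_product, Finset.mem_Ioc, Finset.mem_Icc]
    exact ⟨⟨hq.pa, hq.da⟩, abs_le.1 hq.db⟩
  have h2 : (((Bx X m a0 b0).filter fun q => Squarefree (dsc q.1 q.2)).card : ℝ) ≤
      ({p : ℤ × ℤ | Fam X S s T A B p.1 p.2}.ncard : ℝ) := by
    have := Set.ncard_le_ncard hsub hfin
    rw [Set.ncard_coe_finset] at this
    exact_mod_cast this
  have h3 : (m : ℝ) ^ 2 = (∏ Q ∈ S, (Q : ℝ) ^ 2) * ∏ P ∈ T, (P : ℝ) ^ 2 := by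
    rw [hmdef]
    push_cast
    rw [← Finset.prod_pow, Finset.prod_union hST]
  have h4 : (m : ℝ)⁻¹ ^ 2 = ((∏ Q ∈ S, (Q : ℝ) ^ 2) * ∏ P ∈ T, (P : ℝ) ^ 2)⁻¹ := by
    rw [inv_pow, h3]
  rw [h4] at h1
  have h5 := mul_le_mul_of_nonneg_left (h1.trans h2) hSprod.le
  refine le_trans (le_of_eq ?_) h5
  field_simp

end Pool.Agent.N456.PQ
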